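import Pool.Agent.H62.Sep.Digital

/-!
# Contact numbers of totally separable packings of unit diameter balls in 3-space

We prove that `(3 n - csep n) / n^{2/3}` tends to `3`, where `csep n` is the largest contact number
of a totally separable packing of `n` balls of diameter `1` in Euclidean 3-space
(see `Pool.Agent.H62.Sep.Defs` for the definitions).
-/

open Metric Filter Topology

namespace Pool.Agent.Results.MP_3a09a4_co.SepContactLimit

open Pool.Agent.H62.Sep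

/-- the maximum defining `csep n` is attained -/
lemma csep_isGreatest (n : ℕ) :
    IsGreatest {k : ℕ | ∃ C : Finset E3, C.card = n ∧ IsTotallySeparable C ∧ contactNumber C = k}
      (csep n) := by
  have hbdd : BddAbove {k : ℕ | ∃ C : Finset E3, C.card = n ∧ IsTotallySeparable C ∧
      contactNumber C = k} := by
    refine ⟨3 * n, ?_⟩
    rintro k ⟨C, hC, hTS, rfl⟩
    have := contactNumber_le hTS
    rwa [hC] at this
  have hne : {k : ℕ | ∃ C : Finset E3, C.card = n ∧ IsTotallySeparable C ∧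
      contactNumber C = k}.Nonempty :=
    ⟨_, box 2 n, box_card 2 n, (box_digital 2 n).isTotallySeparable, rfl⟩
  exact ⟨Nat.sSup_mem hne hbdd, fun k hk => le_csSup hbdd hk⟩

/-- lower bound for `3 n - csep n` -/
lemma lower (n : ℕ) (hx : 2 ≤ (n : ℝ) ^ ((1 : ℝ) / 3)) :
    3 * ((n : ℝ) ^ ((1 : ℝ) / 3) - 2) ^ 2 ≤ 3 * (n : ℝ) - csep n := by
  obtain ⟨C, hC, hTS, hk⟩ := (csep_isGreatest n).1
  obtain ⟨h1, h2⟩ := contact_key hTS
  rw [hC, hk] at h1 h2
  set x : ℝ := (n : ℝ) ^ ((1 : ℝ) / 3) with hxdef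
  set t : ℝ := 3 * (n : ℝ) - csep n with ht
  have hx3 : x ^ 3 = n := by
    rw [hxdef, ← Real.rpow_natCast, ← Real.rpow_mul (Nat.cast_nonneg _)]
    norm_num
  have ht0 : 0 ≤ t := by
    have : (0 : ℝ) ≤ 3 * ((six C).card : ℝ) ^ ((2 : ℝ) / 3) := by positivity
    linarith
  set s : ℝ := Real.sqrt (t / 3) with hs
  have hs0 : 0 ≤ s := Real.sqrt_nonneg _
  have hs2 : s ^ 2 = t / 3 := Real.sq_sqrt (by positivity)
  have h3 : ((six C).card : ℝ) ≤ s ^ 3 := by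
    have h4 : ((six C).card : ℝ) ^ ((2 : ℝ) / 3) ≤ s ^ 2 := by rw [hs2]; linarith
    have h5 : (((six C).card : ℝ) ^ ((2 : ℝ) / 3)) ^ ((3 : ℝ) / 2) ≤
        (s ^ 2) ^ ((3 : ℝ) / 2) := Real.rpow_le_rpow (by positivity) h4 (by norm_num)
    rw [← Real.rpow_mul (Nat.cast_nonneg _), ← Real.rpow_natCast s 2, ← Real.rpow_mul hs0] at h5
    norm_num at h5
    exact_mod_cast h5
  have h6 : x ^ 3 ≤ (s + 2) ^ 3 := by
    have h7 : (n : ℝ) - 2 * t ≤ s ^ 3 := h2.trans h3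
    have h8 : t = 3 * s ^ 2 := by rw [hs2]; ring
    rw [hx3]
    nlinarith
  have h7 : x ≤ s + 2 := le_of_pow_le_pow_left₀ (by norm_num) (by positivity) h6
  have h8 : t = 3 * s ^ 2 := by rw [hs2]; ring
  rw [h8]
  have h9 : (x - 2) ^ 2 ≤ s ^ 2 := pow_le_pow_left₀ (by linarith) (by linarith) 2
  linarith

/-- upper bound for `3 n - csep n` -/
lemma upper (n : ℕ) (hx : 1 < (n : ℝ) ^ ((1 : ℝ) / 3)) :
    3 * (n : ℝ) - csep n ≤ 3 * ((n : ℝ) ^ ((1 : ℝ) / 3)) ^ 2 +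
      3 * (n : ℝ) ^ ((1 : ℝ) / 3) + 3 := by
  set x : ℝ := (n : ℝ) ^ ((1 : ℝ) / 3) with hxdef
  have hx3 : x ^ 3 = n := by
    rw [hxdef, ← Real.rpow_natCast, ← Real.rpow_mul (Nat.cast_nonneg _)]
    norm_num
  set m : ℕ := ⌈x⌉₊ with hm
  have hm1 : x ≤ m := Nat.le_ceil x
  have hm2 : (m : ℝ) < x + 1 := Nat.ceil_lt_add_one (by linarith)
  have hm3 : 2 ≤ m := by
    have : (1 : ℝ) < m := by linarith
    have : 1 < m := by exact_mod_cast this
    omega
  have h1 := box_contacts (m := m) (n := n) hm3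
  have h2 : contactNumber (box m n) ≤ csep n :=
    (csep_isGreatest n).2 ⟨box m n, box_card m n, (box_digital m n).isTotallySeparable, rfl⟩
  have h3 : (contactNumber (box m n) : ℝ) ≤ csep n := by exact_mod_cast h2
  have h4 : (n : ℝ) / m ≤ x ^ 2 := by
    rw [div_le_iff₀ (by linarith), ← hx3]
    have : 0 ≤ x ^ 2 := by positivity
    nlinarith
  have h5 : (m : ℝ) ^ 2 ≤ (x + 1) ^ 2 := pow_le_pow_left₀ (by positivity) hm2.le 2
  nlinarith

/-- **Q1 has a positive answer**: `lim (3 n - csep n) / n^{2/3} = 3`. -/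
theorem result :
    Tendsto (fun n : ℕ => (3 * (n : ℝ) - (csep n : ℝ)) / (n : ℝ) ^ ((2 : ℝ) / 3)) atTop
      (𝓝 3) := by
  have hx : Tendsto (fun n : ℕ => (n : ℝ) ^ ((1 : ℝ) / 3)) atTop atTop :=
    (tendsto_rpow_atTop (by norm_num)).comp tendsto_natCast_atTop_atTop
  have hinv : Tendsto (fun n : ℕ => ((n : ℝ) ^ ((1 : ℝ) / 3))⁻¹) atTop (𝓝 0) :=
    tendsto_inv_atTop_zero.comp hx
  have hL : Tendsto (fun n : ℕ => 3 * (1 - 2 * ((n : ℝ) ^ ((1 : ℝ) / 3))⁻¹) ^ 2) atTop (𝓝 3) := by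
    have := ((tendsto_const_nhds (x := (1 : ℝ))).sub (hinv.const_mul 2)).pow 2 |>.const_mul 3
    simpa using this
  have hU : Tendsto (fun n : ℕ => 3 + 3 * ((n : ℝ) ^ ((1 : ℝ) / 3))⁻¹ +
      3 * (((n : ℝ) ^ ((1 : ℝ) / 3))⁻¹) ^ 2) atTop (𝓝 3) := by
    have := ((tendsto_const_nhds (x := (3 : ℝ))).add (hinv.const_mul 3)).add
      ((hinv.pow 2).const_mul 3)
    simpa using this
  have hsq : ∀ n : ℕ, (n : ℝ) ^ ((2 : ℝ) / 3) = ((n : ℝ) ^ ((1 : ℝ) / 3)) ^ 2 := by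
    intro n
    rw [← Real.rpow_natCast, ← Real.rpow_mul (Nat.cast_nonneg _)]
    norm_num
  refine tendsto_of_tendsto_of_tendsto_of_le_of_le' hL hU ?_ ?_
  · filter_upwards [hx.eventually_ge_atTop 2] with n hn
    have h1 := lower n hn
    rw [hsq]
    set x : ℝ := (n : ℝ) ^ ((1 : ℝ) / 3)
    have hx0 : 0 < x := by linarith
    rw [le_div_iff₀ (by positivity)]
    have : 3 * (1 - 2 * x⁻¹) ^ 2 * x ^ 2 = 3 * (x - 2) ^ 2 := by
      field_simp
    rw [this]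
    exact h1
  · filter_upwards [hx.eventually_gt_atTop 1] with n hn
    have h1 := upper n hn
    rw [hsq]
    set x : ℝ := (n : ℝ) ^ ((1 : ℝ) / 3)
    have hx0 : 0 < x := by linarith
    rw [div_le_iff₀ (by positivity)]
    have : (3 + 3 * x⁻¹ + 3 * x⁻¹ ^ 2) * x ^ 2 = 3 * x ^ 2 + 3 * x + 3 := by
      field_simp
    rw [this]
    exact h1

end Pool.Agent.Results.MP_3a09a4_co.SepContactLimit
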